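import Pool.Agent.Q80.HC.Pointed

/-!
MP_5b1cbc_ag, Q1: general type and pseudo-geometric hyperbolicity, for the projective varieties with a
generically finite map to the projective space of the binary forms of degree `n` (onto the image), which
is ramified, to any order, for instance to order two, over the hyperplanes of the forms which vanish at
given points of the projective line. The number of points which is needed is linear in `n`: more than
`4 n` for the order two.

`V` is a projective variety in `P^N`, of any dimension and with any singularities, given by its function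
field `K` and its generic point `y` (`coords k y = ⊤`: the ratios of the coordinates generate `K`).
`φ 0, …, φ n` are forms of the same degree, which define a rational map from `V` to `P^n`, the space of
the forms `∑ l, f l * X ^ (n - l) * Y ^ l`. `discForm k n` is the discriminant of this form (up to the
factor `f n`).

Definitions: `RamV`, `GenFinV` (`Q80/HC/Pointed.lean`); `discForm` (`Y216/RncD.lean`); `GeneralType`
(`W602/GT/Defs.lean`); `PseudoGeomHyp` (`W602/RG/TB.lean`): off a proper closed subset of `V`, for every
pointed curve there are only finitely many morphisms to `V` with a given value at the marked point;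
`CurveBound` (`Y216/Point.lean`): off a proper closed subset of `V`, the degree of a morphism from a
curve of genus `g` to `V` is at most `B * max (2 g - 2) 0`.
-/

set_option autoImplicit false

namespace Pool.Agent.Results.MP_5b1cbc_ag.BinaryFormCoversPointed

open MvPolynomial Pool.Agent.Y216 Pool.Agent.W602.GT Pool.Agent.W602.RG Pool.Agent.Q80.HC

/-- Let `k` be an algebraically closed field of characteristic zero, `n ≥ 1`, let `(u i : v i)`,
`i < q`, be distinct points of the projective line, and let `m i ≥ 1` be integers with
`2 * n < ∑ i, (1 - 1 / m i)` (for instance `m i ≥ 2` and `q > 4 * n`). Let `V` be a projective variety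
and let the forms `φ` of the same degree define a map from `V` to the projective space of the binary
forms of degree `n`, which is ramified to order at least `m i` over the hyperplane of the forms which
vanish at `(u i : v i)`, for all `i`.

* If the map is generically finite onto its image and the image is not contained in one of these
  hyperplanes, in the hyperplane `f n = 0` or in the discriminant hypersurface, then `V` is
  pseudo-geometrically hyperbolic, and off a proper closed subset of `V` the degrees of the curves are
  bounded linearly in the genus.
* If `V` is of dimension `n` and the map is dominant, then `V` is of general type and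
  pseudo-geometrically hyperbolic, and off a proper closed subset of `V` the degrees of the curves are
  bounded linearly in the genus. -/
theorem result {k : Type} [Field k] [IsAlgClosed k] [CharZero k] {n : ℕ} (hn : 1 ≤ n) {q : ℕ}
    (u v : Fin q → k) (huv : ∀ i j, i ≠ j → u i * v j ≠ u j * v i) (m : Fin q → ℕ)
    (hm : ∀ i, 1 ≤ m i) (hsum : 2 * (n : ℝ) < ∑ i, (1 - 1 / (m i : ℝ))) {K : Type} [Field K]
    [Algebra k K] {N : ℕ} (y : Fin (N + 1) → K) (hy : y ≠ 0) (hgen : coords k y = ⊤) {δ : ℕ}
    (φ : Fin (n + 1) → MvPolynomial (Fin (N + 1)) k) (_hφ : ∀ j, (φ j).IsHomogeneous δ)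
    (hR : RamV k y φ (fun i (l : Fin (n + 1)) => u i ^ (n - (l : ℕ)) * v i ^ (l : ℕ)) m) :
    (GenFinV k y φ →
      (∀ i, ∑ l : Fin (n + 1), algebraMap k K (u i ^ (n - (l : ℕ)) * v i ^ (l : ℕ)) *
        aeval y (φ l) ≠ 0) →
      aeval y (φ (Fin.last n)) ≠ 0 → aeval (fun j => aeval y (φ j)) (discForm k n) ≠ 0 →
      PseudoGeomHyp k y ∧ CurveBound k y) ∧
    (Algebra.trdeg k K = n → aeval y (φ 0) ≠ 0 →
      AlgebraicIndependent k (fun j : Fin n => aeval y (φ j.succ) / aeval y (φ 0)) →
      GeneralType k K n ∧ PseudoGeomHyp k y ∧ CurveBound k y) := by
  obtain ⟨B, hB⟩ := curveIneq_rnc hn huv hm hsum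
  have h4 : (1 : ℝ) ≤ n := by exact_mod_cast hn
  refine ⟨fun hfin hne hlast hdisc => ?_, fun htr hc0 hc => ?_⟩
  · have h1 := curveBound_cover hB hy hgen hfin hne (by
      rw [map_mul, aeval_X]
      exact mul_ne_zero hlast hdisc) hR
    exact ⟨pointed_of_bound h1, h1⟩
  · obtain ⟨h1, h2⟩ := dominant_cover (rnc_genPos huv) hm (by linarith)
      (mul_ne_zero (X_ne_zero _) (discForm_ne hn))
      ((isHomogeneous_X _ _).mul discForm_homogeneous) hB hy hgen htr hc0 hc hR
    exact ⟨h1, pointed_of_bound h2, h2⟩

end Pool.Agent.Results.MP_5b1cbc_ag.BinaryFormCoversPointed
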