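import Pool.Agent.Q58.LG.Dmn

/-!
MP_5b1cbc_ag, Q1: general type and (pseudo-)geometric hyperbolicity for the projective varieties
which are dominated by covers of subvarieties of generic complete intersections.

Let `k` be a subfield of the complex numbers, with algebraic closure `k'` in `ℂ`. Let `V` be a closed
subset of `ℙⁿ`, defined over `k'`, of dimension at most `m`, and let `F_a` be finitely many forms
over `ℂ` of degrees `d_a`, whose coefficients are all together algebraically independent over `k`
(this holds for very general forms, if `k` is countable). Let `X₀` be the intersection of `V` with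
the hypersurfaces `F_a = 0`, and `s = ∑ (d_a + 1)`.

(I) Let `V₀` be a closed subvariety of `X₀` of dimension `w ≥ 1`, given by its function field `K` and
its generic point `y` (`SubVar`, `Pool/Agent/W602/GT/SpDefs.lean`), and `r, ρ` with
`2 m + 2 ρ r ≤ s + 1`, `ρ ≥ 1`. We consider all projective varieties `X`, of arbitrary
singularities, with generically finite dominant rational maps `X' ⇢ V₀`, of any degree, and
`X' ⇢ X`, of degree at most `r`. `X` is given by its function field `L` and its generic point `x`:
`coords ℂ x = ⊤` says that the ratios of the coordinates generate `L`. Then `X` is of general type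
and pseudo-geometrically hyperbolic; moreover there is a proper closed subset of `X` such that the
degrees of the curves in `X` which are not contained in it, and of the coverings of degree at most
`ρ` of these curves, are bounded linearly in the genus of the curve.

(II) Let `W = {Ψ = 0}` and `Y = {Φ = 0}` be projective varieties, with a finite morphism `B : W → X₀`
and a finite surjective morphism `G : W → Y` with fibres of at most `r` points, and
`2 m + 1 + r ≤ s`. Then all closed subvarieties of positive dimension of `Y` are of general type and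
`Y` is geometrically hyperbolic: for all pointed curves there are only finitely many morphisms to
`Y` with a given value at the marked point. (So all the closed subvarieties of positive dimension of
`Y` have both properties of the question.)

(III) Let `W = X₀` and `V = ℙⁿ`, so `Y` is an image of a generic complete intersection with
fibres of at most `r` points, and suppose that `s ≤ 2 n - 2` or `2 n + 1 + r ≤ s`. Then the following
are equivalent: `Y` is geometrically hyperbolic; all closed subvarieties of positive dimension of `Y`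
are of general type; for each curve the degrees of the morphisms to `Y` are bounded; there is no
nonconstant morphism from the multiplicative group to `Y`; `2 n - 1 ≤ s`.

A morphism `f` from a smooth projective curve is given by the vector of its homogeneous coordinates
in the function field `L` of the curve; `HasValue c x f` says that `f (c) = x`.

The definitions are in `Pool/Agent/Q58/LG/PtDefs.lean` (`GeomHyp`), `Pool/Agent/W602/RG/TB.lean`
(`PseudoGeomHyp`: off a proper closed subset of `X`, for every pointed curve there are finitely many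
morphisms to `X` with a given value at the marked point), `Pool/Agent/Y221/PB/Dom.lean`
(`CoverBound`), `Pool/Agent/W602/GT/Defs.lean` (`GeneralType`), `Pool/Agent/Y221/FQ/Defs.lean`
(`Mor`, `Onto`, `FibresLe`, `AllGeneral`), `Pool/Agent/W602/GT/SpGmDefs.lean` (`GmCurve`),
`Pool/Agent/W603/CX/Groupless.lean` (`BoundedOnCurves`), `Pool/Agent/TH145/MG/Dim.lean` (`DimLE`)
and `Pool/Agent/Q58/FI/Eqs.lean` (`eqs V F`, the equations of `V` together with the forms `F_a`).
-/

set_option autoImplicit false

namespace Pool.Agent.Results.MP_5b1cbc_ag.DominatedIntersections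

open MvPolynomial FF
open Pool.Agent.TH145.MG (DimLE)
open Pool.Agent.W602.GT (IsForm GmCurve SubVar coords GeneralType)
open Pool.Agent.W602.RG (PseudoGeomHyp)
open Pool.Agent.W603.CX (BoundedOnCurves)
open Pool.Agent.Y221.FQ (Mor Onto FibresLe AllGeneral)
open Pool.Agent.Y221.PB (CoverBound)
open Pool.Agent.Q58.FI (eqs)
open Pool.Agent.Q58.LG (GeomHyp)

theorem result {k : Type} [Field k] [Algebra k ℂ] {n m r l M : ℕ}
    -- forms of degrees `d a`, whose coefficients are algebraically independent over `k`
    {A : Type} [Fintype A] (d : A → ℕ)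
    (F : A → MvPolynomial (Fin (n + 1)) ℂ) (hF : ∀ a, (F a).IsHomogeneous (d a))
    (hgen : AlgebraicIndependent k
      fun p : (a : A) × {I : Fin (n + 1) →₀ ℕ // I.degree = d a} => (F p.1).coeff p.2.1) :
    -- a closed set `V` of dimension at most `m`
    (∀ (V : Set (MvPolynomial (Fin (n + 1)) (algebraicClosure k ℂ))),
      (∀ f ∈ V, ∃ e, f.IsHomogeneous e) → DimLE (algebraicClosure k ℂ) V m →
      -- (I) the dominated varieties: a subvariety `V₀` of the intersection
      (∀ (ρ w : ℕ), 1 ≤ ρ → 1 ≤ w → 2 * m + 2 * (ρ * r) ≤ ∑ a, (d a + 1) + 1 →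
        ∀ (K : Type) [Field K] [Algebra ℂ K] (y : Fin (n + 1) → K), SubVar (eqs V F) K w y →
        -- the varieties `X'` and `X`
        ∀ (K' L : Type) [Field K'] [Field L] [Algebra ℂ K'] [Algebra ℂ L] [Algebra K K']
          [Algebra L K'] [IsScalarTower ℂ K K'] [IsScalarTower ℂ L K'] [FiniteDimensional K K']
          [FiniteDimensional L K'], Module.finrank L K' ≤ r →
          ∀ (x : Fin (M + 1) → L), x ≠ 0 → coords ℂ x = ⊤ →
            GeneralType ℂ L w ∧ PseudoGeomHyp ℂ x ∧ CoverBound ℂ ρ x) ∧
      -- (II) the finite images `Y = {Φ = 0}` of the covers `W = {Ψ = 0}`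
      (2 * m + 1 + r ≤ ∑ a, (d a + 1) →
        ∀ (μ : Type) (Φ : μ → MvPolynomial (Fin (M + 1)) ℂ), (∀ e, IsForm (Φ e)) →
        ∀ (κ : Type) (Ψ : κ → MvPolynomial (Fin (l + 1)) ℂ), (∀ e, IsForm (Ψ e)) →
        ∀ (B : Fin (n + 1) → MvPolynomial (Fin (l + 1)) ℂ), Mor Ψ (eqs V F) B →
        ∀ (G : Fin (M + 1) → MvPolynomial (Fin (l + 1)) ℂ), Mor Ψ Φ G → Onto Ψ Φ G →
        FibresLe Ψ G r → AllGeneral Φ ∧ GeomHyp Φ)) ∧
    -- (III) the images of the complete intersection
    (1 ≤ n → (∀ a, 0 < d a) →
      ∀ (μ : Type) (Φ : μ → MvPolynomial (Fin (M + 1)) ℂ), (∀ e, IsForm (Φ e)) →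
      ∀ (G : Fin (M + 1) → MvPolynomial (Fin (n + 1)) ℂ), Mor F Φ G → Onto F Φ G →
      FibresLe F G r → ∑ a, (d a + 1) ≤ 2 * n - 2 ∨ 2 * n + 1 + r ≤ ∑ a, (d a + 1) →
      [GeomHyp Φ, AllGeneral Φ, BoundedOnCurves Φ, ∀ P, ¬ GmCurve Φ P,
        2 * n - 1 ≤ ∑ a, (d a + 1)].TFAE) := by
  refine ⟨fun V hVh hV => ⟨fun ρ w hρ hw hd K _ _ y hy K' L _ _ _ _ _ _ _ _ _ _ hr x hx hxg =>
    Pool.Agent.Q58.LG.dom_all hVh hV hρ hd hF hgen hw hy hr hx hxg,
    fun hd μ Φ hΦ κ Ψ hΨ B hB G hG hon hfib =>
      ⟨Pool.Agent.Q58.FI.general_im hVh hV hd hF hgen hΨ hB hG hon hfib,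
        Pool.Agent.Q58.LG.geom_of_bounded hΦ
          (Pool.Agent.Q58.FI.bounded_im hVh hV hd hF hgen hΨ hB hG hon hfib)⟩⟩,
    fun hn hd0 μ Φ hΦ G hG hon hfib hd => ?_⟩
  have h := Pool.Agent.Q58.LG.tfae_geo hn hd0 hF hgen hΦ hG hon hfib hd
  tfae_have 1 ↔ 3 := h.out 0 1
  tfae_have 1 ↔ 4 := h.out 0 2
  tfae_have 1 ↔ 2 := h.out 0 3
  tfae_have 1 ↔ 5 := h.out 0 4
  tfae_finish

end Pool.Agent.Results.MP_5b1cbc_ag.DominatedIntersections
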