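import Pool.Agent.Q1.BE.AllF

set_option autoImplicit false

/-!
# Families of maps from curves to a projective variety, and families of correspondences

Let `n`, `D`, `d`, `s`, `r`, `e` be given.  There are two numbers `δ` and `B` such that the following
holds for ALL algebraically closed fields `k` of characteristic zero, for ALL closed sets `X` in
projective `n`-space over `k` given by any set `S` of forms of degree at most `D`, and for all forms
`G` of degree at most `D` such that the curves of gonality at most `d` and of degree at most `δ` on
`X` are in `G = 0` (`GonIn S G d δ`; for `d = 1` these are the rational curves; the case `G = 1` is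
that there are no such curves on `X`, as on geometrically hyperbolic varieties if `d = 1`).

Let `L` be ANY field which contains `k`, for example the field `k(C)` of rational functions on any
curve `C` over `k`.  For `h` in an arbitrary group `H` let `Pol (x h)` be a monic polynomial of degree
`d` over `L` and, for its roots `α` in the algebraic closure of `L`, `Num (x h) α` the point whose
`n + 1` homogeneous coordinates are values of polynomials over `L` of degree less than `d` at `α`; the
coefficients of these `n + 2` polynomials are the components of the vector `x(h)`.  If `L = k(C)` and
the point `Num (x h) α` is on `X`, it is a map from a curve `C'` to `X`, where `C'` is a cover of `C`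
of degree at most `d` (for `d = 1` it is a map from `C` to `X`).  We suppose that these points are on
`X`, and that the family `x` is given by iterated recurrences (`IterFam s r e x`): there are
invertible matrices `X_1(h), ..., X_s(h)` of size `r` over `L` such that, for all `g` in `H`, the
entries of `X_l(g h) X_l(h)⁻¹` are, for all `h`, the values of polynomials over `L` (depending on `g`)
of degree at most `e` in each variable at the entries of `X_i(h)`, `X_i(h)⁻¹`, `i < l`, and the
components of `x(h)` are values of such polynomials at the entries of all these matrices.

Then at most `B` of all these points are outside of `G = 0`: at most `B` of the maps `C' → X` in the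
family do not have their image in `G = 0`.  In particular at most `B` of the maps of such a family
have a given value, not in `G = 0`, at a given point.  The number `B` does not depend on the field
`k`, the variety `X`, the curve `C`, its genus, the covers or the family.
-/

namespace Pool.Agent.Results.MP_5b1cbc_ag.FamiliesOfMaps

open MvPolynomial Pool.Agent.Q1.BD

theorem result (n D d s r e : ℕ) : ∃ δ B : ℕ,
    ∀ (k : Type) [Field k] [CharZero k] [IsAlgClosed k]
      (S : Set (MvPolynomial (Fin (n + 1)) k)) (G : MvPolynomial (Fin (n + 1)) k),
      (∀ F ∈ S, ∃ e, e ≤ D ∧ F.IsHomogeneous e) → (∃ e, e ≤ D ∧ G.IsHomogeneous e) →
      GonIn S G d δ → ∀ (L : Type) [Field L] [Algebra k L] (H : Type) [Group H]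
        (x : H → Jx n d → L), IterFam s r e x →
        (∀ h α, (Pol (bar (x h))).eval α = 0 → ∀ F ∈ S, aeval (Num (bar (x h)) α) F = 0) →
        (rootPts G x).encard ≤ (B : ℕ∞) :=
  gon_fields n D d s r e

end Pool.Agent.Results.MP_5b1cbc_ag.FamiliesOfMaps
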