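import Pool.Agent.Q80.HC.Gen

/-!
MP_5b1cbc_ag, Q1: general type and pseudo-geometric hyperbolicity, for the projective varieties with a
generically finite map to a projective space (onto the image) which is ramified, to any order, for
instance to order two, over sufficiently many hyperplanes in general position.

`V` is a projective variety in `P^N`, of any dimension and with any singularities, given by its function
field `K` and its generic point `y` (`coords k y = ⊤`: the ratios of the coordinates generate `K`).
`φ 0, …, φ n` are forms of the same degree, which define a rational map from `V` to `P^n`.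

Definitions: `RamV`, `GenFinV` (`Q80/HC/Pointed.lean`); `Ind` (`W601/VF/Arr.lean`): the points impose
independent conditions on the forms of degree `d`; `GenPos` (`Y216/Defs.lean`): general position;
`GeneralType` (`W602/GT/Defs.lean`); `PseudoGeomHyp` (`W602/RG/TB.lean`): off a proper closed subset of
`V`, for every pointed curve there are only finitely many morphisms to `V` with a given value at the
marked point; `CurveBound` (`Y216/Point.lean`): off a proper closed subset of `V`, the degree of a
morphism from a curve of genus `g` to `V` is at most `B * max (2 g - 2) 0`.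
-/

set_option autoImplicit false

namespace Pool.Agent.Results.MP_5b1cbc_ag.HyperplaneCoversPointed

open MvPolynomial Pool.Agent.Y216 Pool.Agent.W601.VF Pool.Agent.W602.GT Pool.Agent.W602.RG
open Pool.Agent.Q80.HC

/-- Let `k` be an algebraically closed field of characteristic zero and `n ≥ 1`.

(1) Let `a i`, `i < q`, be linear forms in `n + 1` variables which, as points of the dual space, impose
independent conditions on the forms of degree `d`, and let `m i ≥ 1` be integers with
`2 * C(n + d - 1, n - 1) < ∑ i, (1 - 1 / m i)`. Let `V` be a projective variety and let the forms `φ` of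
the same degree define a map from `V` to projective `n`-space, which is ramified to order at least `m i`
over the hyperplane `a i = 0`, for all `i`.

* If the map is generically finite onto its image and the image is not contained in one of the
  hyperplanes, then `V` is pseudo-geometrically hyperbolic, and off a proper closed subset of `V` the
  degrees of the curves are bounded linearly in the genus.
* If the hyperplanes are in general position, `V` is of dimension `n` and the map is dominant, then `V`
  is of general type and pseudo-geometrically hyperbolic, and off a proper closed subset of `V` the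
  degrees of the curves are bounded linearly in the genus.

(2) If `q > C(5 n, n)`, there is a number `d` such that all `q`-tuples `a` of linear forms outside a
proper Zariski closed subset satisfy the conditions in (1), for all `m i ≥ 2`. -/
theorem result {k : Type} [Field k] [IsAlgClosed k] [CharZero k] (n : ℕ) (hn : 1 ≤ n) :
    (∀ (d q : ℕ) (a : Fin q → Fin (n + 1) → k) (m : Fin q → ℕ), Ind d a → (∀ i, 1 ≤ m i) →
      2 * (((n + d - 1).choose (n - 1) : ℕ) : ℝ) < ∑ i, (1 - 1 / (m i : ℝ)) →
      ∀ (K : Type) [Field K] [Algebra k K] (N : ℕ) (y : Fin (N + 1) → K), y ≠ 0 →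
        coords k y = ⊤ → ∀ (δ : ℕ) (φ : Fin (n + 1) → MvPolynomial (Fin (N + 1)) k),
        (∀ j, (φ j).IsHomogeneous δ) → RamV k y φ a m →
        (GenFinV k y φ → (∀ i, ∑ j, algebraMap k K (a i j) * aeval y (φ j) ≠ 0) →
          PseudoGeomHyp k y ∧ CurveBound k y) ∧
        (GenPos a → Algebra.trdeg k K = n → aeval y (φ 0) ≠ 0 →
          AlgebraicIndependent k (fun j : Fin n => aeval y (φ j.succ) / aeval y (φ 0)) →
          GeneralType k K n ∧ PseudoGeomHyp k y ∧ CurveBound k y)) ∧
    (∀ q : ℕ, (5 * n).choose n < q → ∃ d : ℕ, ∃ Ψ : MvPolynomial (Fin q × Fin (n + 1)) k, Ψ ≠ 0 ∧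
      ∀ a : Fin q → Fin (n + 1) → k, eval (fun x => a x.1 x.2) Ψ ≠ 0 → Ind d a ∧ GenPos a ∧
        ∀ m : Fin q → ℕ, (∀ i, 2 ≤ m i) →
          2 * (((n + d - 1).choose (n - 1) : ℕ) : ℝ) < ∑ i, (1 - 1 / (m i : ℝ))) := by
  refine ⟨?_, fun q hq => generic_two n hn q hq⟩
  intro d q a m ha hm hsum K _ _ N y hy hgen δ φ _ hR
  have hw : ∀ i, (1 - 1 / (m i : ℝ)) ≤ 1 := fun i => by
    have : (0 : ℝ) ≤ 1 / (m i : ℝ) := by positivity
    linarith
  obtain ⟨d', rfl⟩ := pos_degree ha hw hsum hn
  obtain ⟨B, hB⟩ := curveIneq_general hn ha hm hsum
  have hn1 : (n : ℝ) + 1 < ∑ i, (1 - 1 / (m i : ℝ)) := by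
    refine lt_of_le_of_lt ?_ hsum
    have h1 : n ≤ (n + (d' + 1) - 1).choose (n - 1) := by
      have h2 : n.choose (n - 1) ≤ (n + (d' + 1) - 1).choose (n - 1) :=
        Nat.choose_le_choose _ (by omega)
      rwa [Nat.choose_symm (by omega : 1 ≤ n), Nat.choose_one_right] at h2
    have h3 : (n : ℝ) ≤ (((n + (d' + 1) - 1).choose (n - 1) : ℕ) : ℝ) := by exact_mod_cast h1
    have h4 : (1 : ℝ) ≤ n := by exact_mod_cast hn
    linarith
  refine ⟨fun hfin hne => ?_, fun hpos htr hc0 hc => ?_⟩
  · have h1 := curveBound_cover hB hy hgen hfin hne (by rw [map_one]; exact one_ne_zero) hR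
    exact ⟨pointed_of_bound h1, h1⟩
  · obtain ⟨h1, h2⟩ := dominant_cover hpos hm hn1 one_ne_zero (isHomogeneous_one _ _) hB hy hgen htr
      hc0 hc hR
    exact ⟨h1, pointed_of_bound h2, h2⟩

end Pool.Agent.Results.MP_5b1cbc_ag.HyperplaneCoversPointed
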